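import Pool.Agent.Y294.TB2.Loc3
import Pool.Agent.Y568.TB2.Glob

/-!
Periodic orbits with at most two bounces which are not at noncircular algebraic boundary points, one
of the two being at an algebraic boundary point (which may be circular).
-/

set_option autoImplicit false

open MeasureTheory Set Filter Topology
open scoped InnerProductSpace
open Pool.Agent.H721R2.Quart Pool.Agent.H721R2.Ivrii

namespace Pool.Agent.Y294.TB2

open Pool.Agent.TH746 Pool.Agent.TH746.AL Pool.Agent.TH746.UM MvPolynomial H450Al H450Sp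
open Pool.Agent.Y294.TB Pool.Agent.Y568.TB2

/-- near `q` the boundary of the table lies in the zero set of a nonzero polynomial -/
def AnyAlg {d : ℕ} (Ω : Set (EuclideanSpace ℝ (Fin d))) (q : EuclideanSpace ℝ (Fin d)) : Prop :=
  ∃ P : MvPolynomial (Fin d) ℝ, P ≠ 0 ∧ ∀ᶠ y in 𝓝 q, y ∈ frontier Ω → eval y.ofLp P = 0

theorem localA (hGOOD : S_GOOD) (h1 : S2_PT1) (h2 : S2_PT2) (h3 : S2_PT3) (hC2 : S2_CORE2)
    {m : ℕ} {Z₁ Z₂ : Type} [NormedAddCommGroup Z₁] [NormedSpace ℝ Z₁] [FiniteDimensional ℝ Z₁]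
    [MeasurableSpace Z₁] [BorelSpace Z₁] [NormedAddCommGroup Z₂] [NormedSpace ℝ Z₂]
    [FiniteDimensional ℝ Z₂] [MeasurableSpace Z₂] [BorelSpace Z₂]
    (μ : Measure (Z₁ × Z₂)) [μ.IsAddHaarMeasure] (C : Chn (EE m) (Z₁ × Z₂)) (k : Subfield ℝ)
    (hk : Countable k) (j : ℕ) (P : ℕ → MvPolynomial (Fin (m + 2)) k) (hS : Split2 C)
    (hj : 1 ≤ j) (hjN : j < C.N) (h0 : ∀ i, (C.g 0).ofLp i ∈ k)
    (hg : ∀ i l, (C.g.linearIsometryEquiv (EuclideanSpace.single i 1)).ofLp l ∈ k)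
    (hnc : ∀ i, 1 ≤ i → i < C.N → i ≠ j → NC2 (map (algebraMap k ℝ) (P i))) (hPj : P j ≠ 0) :
    μ {z | z ∈ C.U ∧ C.x C.N z = C.g (C.x 0 z) ∧ C.e C.N z = C.G (C.e 0 z) ∧
      C.n C.N z = C.G (C.n 0 z) ∧
      ∀ i, 1 ≤ i → i < C.N → aeval (C.x i z).ofLp (P i) = 0} = 0 := by
  have hN := C.hN
  obtain ⟨A, hAdef⟩ : ∃ A, A = {z | z ∈ C.U ∧ C.x C.N z = C.g (C.x 0 z) ∧
      C.e C.N z = C.G (C.e 0 z) ∧ C.n C.N z = C.G (C.n 0 z) ∧
      ∀ i, 1 ≤ i → i < C.N → aeval (C.x i z).ofLp (P i) = 0} := ⟨_, rfl⟩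
  rw [← hAdef]
  have hcof : Continuous (fun y : EE m => y.ofLp) := (EuclideanSpace.equiv (Fin (m + 2)) ℝ).continuous
  have hAm : MeasurableSet A := by
    have hA : A = ((C.U ∩ (fun z => C.x C.N z - C.g (C.x 0 z)) ⁻¹' {0}) ∩
        ((C.U ∩ (fun z => C.e C.N z - C.G (C.e 0 z)) ⁻¹' {0}) ∩
        (C.U ∩ (fun z => C.n C.N z - C.G (C.n 0 z)) ⁻¹' {0}))) ∩
        ⋂ i ∈ {i : ℕ | 1 ≤ i ∧ i < C.N},
          (C.U ∩ (fun z => aeval (C.x i z).ofLp (P i)) ⁻¹' {0}) := by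
      rw [hAdef]
      ext z
      simp only [mem_ofPred_eq, mem_inter_iff, mem_preimage, mem_singleton_iff, sub_eq_zero,
        mem_iInter]
      constructor
      · rintro ⟨a1, a2, a3, a4, a5⟩
        exact ⟨⟨⟨a1, a2⟩, ⟨a1, a3⟩, ⟨a1, a4⟩⟩, fun i hi => ⟨a1, a5 i hi.1 hi.2⟩⟩
      · rintro ⟨⟨⟨a1, a2⟩, ⟨-, a3⟩, ⟨-, a4⟩⟩, a5⟩
        exact ⟨a1, a2, a3, a4, fun i b1 b2 => (a5 i ⟨b1, b2⟩).2⟩
    rw [hA]
    refine ((C.meas_zero fun z hz => ?_).inter ((C.meas_zero fun z hz => ?_).inter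
      (C.meas_zero fun z hz => ?_))).inter
      (MeasurableSet.biInter (Set.to_countable _) fun i hi => C.meas_zero fun z hz => ?_)
    · exact (C.dx C.N le_rfl z hz).continuousAt.sub
        (C.g.continuous.continuousAt.comp (C.dx 0 hN.le z hz).continuousAt)
    · exact (C.de C.N le_rfl z hz).continuousAt.sub
        (C.G.continuous.continuousAt.comp (C.de 0 hN.le z hz).continuousAt)
    · exact (C.dn C.N le_rfl z hz).continuousAt.sub
        (C.G.continuous.continuousAt.comp (C.dn 0 hN.le z hz).continuousAt)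
    · exact ((continuous_aeval' (P i)).comp hcof).continuousAt.comp
        (C.dx i hi.2.le z hz).continuousAt
  have hAU : A ⊆ C.U := by rw [hAdef]; exact fun z hz => hz.1
  obtain ⟨B, hBA, hBm, hBn, hB⟩ := hGOOD (Z₁ × Z₂) μ k (Fin 3 × Fin (C.N + 1) × Fin (m + 2))
    (vv2 C) A hAm (fun z hz l => vv2_diff C (hAU hz) l)
  by_contra hne
  have hBne : B.Nonempty := by
    by_contra hcon
    rw [Set.not_nonempty_iff_eq_empty] at hcon
    rw [hcon, Set.sdiff_empty] at hBn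
    exact hne hBn
  obtain ⟨z, hz⟩ := hBne
  have hzA := hBA hz
  have hzU := hAU hzA
  rw [hAdef] at hzA
  obtain ⟨-, a2, a3, a4, a5⟩ := hzA
  exact nondegen2 C hC2 h1 h2 h3 (fun i => ⟨⟨_, h0 i⟩, rfl⟩) (fun i l => ⟨⟨_, hg i l⟩, rfl⟩) hS hzU
    (hB z hz) a2 a3 a4 hj hjN P
    (fun i b1 b2 b3 => ⟨descend_lead (P i) (hnc i b1 b2 b3), a5 i b1 b2⟩)
    (rk_le_one2 hPj (a5 j hj hjN))

variable {m : ℕ}

/-- the boundary of the table in `B` lies in the zero set of the nonzero polynomial `P` -/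
def FitA (Ω : Set (EE m)) (P : MvPolynomial (Fin (m + 2)) ℝ) (B : Set (EE m)) : Prop :=
  P ≠ 0 ∧ ∀ y ∈ B, y ∈ frontier Ω → eval y.ofLp P = 0

/-- a countable field over which the algebraic pieces of the boundary and the symmetry are
defined -/
theorem exists_fieldA (Ω : Set (EE m)) (g : EE m ≃ᵃⁱ[ℝ] EE m) :
    ∃ k : Subfield ℝ, Countable k ∧ (∀ j, (g 0).ofLp j ∈ k) ∧
      (∀ i j, (g.linearIsometryEquiv (EuclideanSpace.single i 1)).ofLp j ∈ k) ∧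
      (∀ q, AlgAt Ω q → ∃ (B : Set (EE m)) (P : MvPolynomial (Fin (m + 2)) k), IsOpen B ∧ q ∈ B ∧
        NC2 (map (algebraMap k ℝ) P) ∧ ∀ y ∈ B, y ∈ frontier Ω → aeval y.ofLp P = 0) ∧
      ∀ q, AnyAlg Ω q → ∃ (B : Set (EE m)) (P : MvPolynomial (Fin (m + 2)) k), IsOpen B ∧ q ∈ B ∧
        P ≠ 0 ∧ ∀ y ∈ B, y ∈ frontier Ω → aeval y.ofLp P = 0 := by
  classical
  obtain ⟨k₀, hk₀, c1, c2, c3⟩ := exists_field' Ω g
  set 𝓑 := TopologicalSpace.countableBasis (EE m) with h𝓑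
  have hcount : Countable {B : Set (EE m) // B ∈ 𝓑 ∧ ∃ P, FitA Ω P B} := by
    have h1 : Countable 𝓑 := (TopologicalSpace.countable_countableBasis (EE m)).to_subtype
    exact Function.Injective.countable (f := fun B : {B : Set (EE m) // B ∈ 𝓑 ∧ ∃ P, FitA Ω P B} =>
      (⟨B.1, B.2.1⟩ : 𝓑)) (fun a b hab => Subtype.ext (congrArg (fun z : 𝓑 => z.1) hab))
  set ι := {B : Set (EE m) // B ∈ 𝓑 ∧ ∃ P, FitA Ω P B} with hι
  set PR : ι → MvPolynomial (Fin (m + 2)) ℝ := fun B => B.2.2.choose with hPR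
  have hPf : ∀ B : ι, FitA Ω (PR B) B.1 := fun B => B.2.2.choose_spec
  have hopen : ∀ B : ι, IsOpen B.1 := fun B =>
    (TopologicalSpace.isBasis_countableBasis (EE m)).isOpen B.2.1
  set C : Set ℝ := (⋃ B : ι, ((PR B).coeffs : Set ℝ)) ∪ (k₀ : Set ℝ) with hC
  have hCc : C.Countable := (countable_iUnion fun B => (PR B).coeffs.countable_toSet).union
    (Set.to_countable _)
  set k : Subfield ℝ := Subfield.closure C with hk
  have hkc : Countable k := by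
    have h1 := Subfield.cardinalMk_closure_le_max C
    rw [← Cardinal.mk_le_aleph0_iff]
    refine h1.trans ?_
    rw [max_eq_right]
    exact Cardinal.mk_le_aleph0_iff.2 hCc.to_subtype
  have hk₀k : k₀ ≤ k := fun a ha => Subfield.subset_closure (Or.inr ha)
  have hdesc : ∀ B : ι, ∃ P : MvPolynomial (Fin (m + 2)) k, map (algebraMap k ℝ) P = PR B := by
    intro B
    have h1 : PR B ∈ Set.range (map (algebraMap k ℝ) :
        MvPolynomial (Fin (m + 2)) k →+* MvPolynomial (Fin (m + 2)) ℝ) := by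
      have h2 := (MvPolynomial.mem_range_map_iff_coeffs_subset (f := algebraMap k ℝ)
        (x := PR B)).2 (by
          intro a ha
          have h3 : a ∈ k := Subfield.subset_closure (Or.inl (mem_iUnion.2 ⟨B, ha⟩))
          exact ⟨⟨a, h3⟩, rfl⟩)
      exact h2
    exact h1
  choose P hPmap using hdesc
  refine ⟨k, hkc, fun j => hk₀k (c1 j), fun i j => hk₀k (c2 i j), ?_, ?_⟩
  · intro q hq
    obtain ⟨B, Q, b1, b2, b3, b4⟩ := c3 q hq
    have e : (algebraMap k ℝ).comp (Subfield.inclusion hk₀k) = algebraMap k₀ ℝ := rfl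
    refine ⟨B, map (Subfield.inclusion hk₀k) Q, b1, b2, ?_, ?_⟩
    · rw [MvPolynomial.map_map, e]
      exact b3
    · intro y hy hfy
      have h1 := b4 y hy hfy
      rw [aeval_def] at h1 ⊢
      rw [eval₂_map, e]
      exact h1
  · rintro q ⟨Q, hQ1, hQ2⟩
    obtain ⟨B, hB, hxB, hsub⟩ :=
      (TopologicalSpace.isBasis_countableBasis (EE m)).mem_nhds_iff.1 hQ2
    obtain ⟨B', hB'⟩ : ∃ B' : ι, B'.1 = B := ⟨⟨B, hB, Q, hQ1, fun y hy => hsub hy⟩, rfl⟩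
    have h5 := hPf B'
    refine ⟨B'.1, P B', hopen B', by rw [hB']; exact hxB, ?_, ?_⟩
    · intro h0
      have h6 := hPmap B'
      rw [h0, map_zero] at h6
      exact h5.1 h6.symm
    · intro y hy hfy
      have h1 := h5.2 y hy hfy
      rw [← hPmap, eval_map_aeval] at h1
      exact h1

/-- The phase points after `l` bounces of the periodic orbits (modulo `g`), the bounces `1, ..., n - 1`
of which, with the exception of `j`, are at noncircular algebraic points, the bounce `j` being at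
an algebraic point. -/
def Ta (Ω : Set (EE m)) (g : EE m ≃ᵃⁱ[ℝ] EE m) (n j l : ℕ) : Set (EE m × EE m) :=
  (fun w : (ℕ → EE m) × (ℕ → EE m) => (w.1 l, w.2 l)) ''
    {w | OrbitMod Ω g n w.1 w.2 ∧ (∀ k, 1 ≤ k → k < n → k ≠ j → AlgAt Ω (w.1 k)) ∧
      AnyAlg Ω (w.1 j)}

theorem ta_null (h1 : S2_CHART) (hGOOD : S_GOOD) (hp1 : S2_PT1) (hp2 : S2_PT2) (hp3 : S2_PT3)
    (hC2 : S2_CORE2) {Ω : Set (EE m)} {g : EE m ≃ᵃⁱ[ℝ] EE m}
    (hg : g ⁻¹' Ω = Ω) {n j l : ℕ} (hl : l ≤ n) (hj : 1 ≤ j) (hjn : j < n) :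
    μH[((2 * m + 2 : ℕ) : ℝ)] (Ta Ω g n j l) = 0 := by
  classical
  obtain ⟨k, hkc, k1, k2, k3, k4⟩ := exists_fieldA Ω g
  apply null_of_locally_null
  rintro ⟨p, u⟩ ⟨hor, hal, hany⟩
  obtain ⟨a, b, C, ha, hb, hCN, hCg, hsp, hCD, hT, hL, hev⟩ := h1 m Ω g n p u hg hor
  have hfa : Module.finrank ℝ ((ℝ ∙ a)ᗮ : Submodule ℝ (EE m)) = m + 1 := by
    have h1 := Submodule.finrank_add_finrank_orthogonal (ℝ ∙ a)
    rw [finrank_span_singleton ha, finrank_euclideanSpace_fin] at h1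
    omega
  have hfb : Module.finrank ℝ ((ℝ ∙ b)ᗮ : Submodule ℝ (EE m)) = m + 1 := by
    have h1 := Submodule.finrank_add_finrank_orthogonal (ℝ ∙ b)
    rw [finrank_span_singleton hb, finrank_euclideanSpace_fin] at h1
    omega
  have hfr : Module.finrank ℝ ((ℝ ∙ a)ᗮ × (ℝ ∙ b)ᗮ) = 2 * m + 2 := by
    rw [Module.finrank_prod, hfa, hfb]
    ring
  have hbox : ∀ i, ∃ (B : Set (EE m)) (P : MvPolynomial (Fin (m + 2)) k), 1 ≤ i → i < n →
      IsOpen B ∧ p i ∈ B ∧ (i ≠ j → NC2 (map (algebraMap k ℝ) P)) ∧ (i = j → P ≠ 0) ∧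
        ∀ y ∈ B, y ∈ frontier Ω → aeval y.ofLp P = 0 := by
    intro i
    by_cases hi : 1 ≤ i ∧ i < n
    · by_cases hij : i = j
      · obtain ⟨B, P, b1, b2, b3, b4⟩ := k4 (p j) hany
        rw [hij]
        exact ⟨B, P, fun _ _ => ⟨b1, b2, fun h => absurd rfl h, fun _ => b3, b4⟩⟩
      · obtain ⟨B, P, b1, b2, b3, b4⟩ := k3 (p i) (hal i hi.1 hi.2 hij)
        exact ⟨B, P, fun _ _ => ⟨b1, b2, fun _ => b3, fun h => absurd h hij, b4⟩⟩
    · exact ⟨∅, 0, fun a b => absurd ⟨a, b⟩ hi⟩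
  choose B P hBP using hbox
  obtain ⟨A, hA⟩ : ∃ A, A = {z : (ℝ ∙ a)ᗮ × (ℝ ∙ b)ᗮ | z ∈ C.U ∧
      C.x C.N z = C.g (C.x 0 z) ∧ C.e C.N z = C.G (C.e 0 z) ∧
      C.n C.N z = C.G (C.n 0 z) ∧
      ∀ i, 1 ≤ i → i < C.N → aeval (C.x i z).ofLp (P i) = 0} := ⟨_, rfl⟩
  have h0 := localA hGOOD hp1 hp2 hp3 hC2
    (μH[(Module.finrank ℝ ((ℝ ∙ a)ᗮ × (ℝ ∙ b)ᗮ) : ℝ)]) C k hkc j P hsp hj
    (by rw [hCN]; exact hjn) (by rw [hCg]; exact k1) (by rw [hCg]; exact k2)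
    (fun i hi1 hi hij => (hBP i hi1 (by rw [← hCN]; exact hi)).2.2.1 hij)
    ((hBP j hj hjn).2.2.2.1 rfl)
  rw [← hA, hfr] at h0
  obtain ⟨K, hK⟩ := hL l hl
  refine ⟨(fun z => (C.x l z, C.e l z)) '' A, ?_, ?_⟩
  · have hK' : LipschitzOnWith K (fun z => (C.x l z, C.e l z)) A :=
      hK.mono fun z hz => by rw [hA] at hz; exact hz.1
    have h3 := hK'.hausdorffMeasure_image_le (d := ((2 * m + 2 : ℕ) : ℝ)) (Nat.cast_nonneg _)
    rw [h0, mul_zero] at h3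
    exact nonpos_iff_eq_zero.mp h3
  · have hnear : ∀ᶠ w : (ℕ → EE m) × (ℕ → EE m) in 𝓝 (p, u),
        ∀ i ∈ {i : ℕ | i < n}, 1 ≤ i → w.1 i ∈ B i := by
      rw [Filter.eventually_all_finite (Set.finite_lt_nat n)]
      intro i hi
      by_cases hc : 1 ≤ i
      · obtain ⟨hB, hpB, -, -, -⟩ := hBP i hc hi
        have hcont : Continuous fun w : (ℕ → EE m) × (ℕ → EE m) => w.1 i :=
          (continuous_apply i).comp continuous_fst
        filter_upwards [hcont.continuousAt.eventually_mem (hB.mem_nhds hpB)] with w hw _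
        exact hw
      · exact Eventually.of_forall fun w a => absurd a hc
    filter_upwards [hev, hnear] with w hw hwB hor'
    obtain ⟨z, hzU, hz, hzn, hzc⟩ := hw hor'.1
    refine ⟨z, ?_, ?_⟩
    · rw [hA]
      have hx0 := (hz 0 (Nat.zero_le _)).1
      have he0 := (hz 0 (Nat.zero_le _)).2
      have hxn := (hz n le_rfl).1
      have hen := (hz n le_rfl).2
      have hpn := hor'.1.perp 0
      have hun := hor'.1.peru 0
      rw [zero_add] at hpn hun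
      refine ⟨hzU, ?_, ?_, hzn, ?_⟩
      · rw [hCN, hxn, hx0, hCg]
        exact hpn
      · rw [Chn.G_apply, hCN, hen, he0, hCg]
        exact hun
      · intro i hi1 hi
        rw [hCN] at hi
        have hxi := (hz i hi.le).1
        rw [hxi]
        exact (hBP i hi1 hi).2.2.2.2 (w.1 i) (hwB i hi hi1) (mem_fr hor'.1 hi1)
    · have h3 := hz l hl
      exact Prod.ext h3.1 h3.2

theorem globA (h1 : S2_CHART) (hGOOD : S_GOOD) (hp1 : S2_PT1) (hp2 : S2_PT2) (hp3 : S2_PT3)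
    (hC2 : S2_CORE2) (d : ℕ) (hd : 2 ≤ d) (Ω : Set (EuclideanSpace ℝ (Fin d)))
    (Γ : Set (EuclideanSpace ℝ (Fin d) ≃ᵃⁱ[ℝ] EuclideanSpace ℝ (Fin d))) (hΓ : Γ.Countable)
    (hinv : ∀ g ∈ Γ, g ⁻¹' Ω = Ω) :
    μH[((2 * d - 2 : ℕ) : ℝ)] {z : EuclideanSpace ℝ (Fin d) × EuclideanSpace ℝ (Fin d) |
      ∃ g ∈ Γ, ∃ (n : ℕ) (p u : ℕ → EuclideanSpace ℝ (Fin d)), OrbitMod Ω g n p u ∧
      (p 0, u 0) = z ∧ ∃ a < n, ∃ b, a < b ∧ b < a + n ∧
        (∀ k, a < k → k < a + n → k ≠ b → AlgAt Ω (p k)) ∧ AnyAlg Ω (p b)} = 0 := by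
  obtain ⟨m, rfl⟩ : ∃ m, d = m + 2 := ⟨d - 2, by omega⟩
  have e2 : 2 * (m + 2) - 2 = 2 * m + 2 := by omega
  rw [e2]
  refine measure_mono_null (t := ⋃ g ∈ Γ, ⋃ n : ℕ, ⋃ j : ℕ, ⋃ l : ℕ, ⋃ (_ : 1 ≤ j ∧ j < n),
    ⋃ (_ : l ≤ n),
    {z : EE m × EE m | (g z.1, g.linearIsometryEquiv z.2) ∈ Ta Ω g n j l}) ?_ ?_
  · rintro z ⟨g, hgΓ, n, p, u, hor, rfl, a, han, b, hab, hbn, ha, hb⟩
    refine mem_iUnion₂.2 ⟨g, hgΓ, mem_iUnion.2 ⟨n, mem_iUnion.2 ⟨b - a,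
      mem_iUnion.2 ⟨n - a, mem_iUnion₂.2 ⟨⟨by omega, by omega⟩, Nat.sub_le _ _, ?_⟩⟩⟩⟩⟩
    refine ⟨(fun k => p (k + a), fun k => u (k + a)), ⟨OrbitMod.shift' hor a, ?_, ?_⟩, ?_⟩
    · intro k hk1 hk hkj
      exact ha (k + a) (by omega) (by omega) (by omega)
    · simp only
      have h5 : b - a + a = b := by omega
      rw [h5]
      exact hb
    · simp only
      have h1 : n - a + a = 0 + n := by omega
      rw [h1, hor.perp, hor.peru]
  · refine (measure_biUnion_null_iff hΓ).2 fun g hg => measure_iUnion_null fun n =>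
      measure_iUnion_null fun j => measure_iUnion_null fun l =>
      measure_iUnion_null fun hj => measure_iUnion_null fun hl => ?_
    exact pull g (2 * m + 2) (Ta Ω g n j l)
      (ta_null h1 hGOOD hp1 hp2 hp3 hC2 (hinv g hg) hl hj.1 hj.2)

end Pool.Agent.Y294.TB2
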