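import Pool.Agent.Y294.TB2.Alg
import Pool.Agent.Y445.TB2.Hg
import Pool.Agent.Y756.TB2.Chain
import Pool.Agent.Y756.TB2.Len
import Pool.Agent.Y474.TB2.Core2
import Pool.Agent.Y568.TB2.Two
import Pool.Agent.Y568.TB2.Sel
import Pool.Agent.Y968.TB2.Surj
import Pool.Agent.Y961.TB2.Pt
import Pool.Agent.Y568.TB2.Chart
import Pool.Agent.Y641.TB.Good

/-!
The theorem of the project TB2: two arbitrary bounces in all dimensions.
-/

set_option autoImplicit false

open MeasureTheory Set Filter Topology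
open scoped InnerProductSpace
open Pool.Agent.H721R2.Quart Pool.Agent.H721R2.Ivrii

namespace Pool.Agent.Y294.TB2

open Pool.Agent.TH746 Pool.Agent.TH746.AL MvPolynomial H450Al H450Sp Pool.Agent.Y294.TB

theorem core2_ : S2_CORE2 :=
  Pool.Agent.Y474.TB2.core2 (Pool.Agent.Y756.TB2.chain Pool.Agent.Y445.TB2.hg)
    Pool.Agent.Y756.TB2.len Pool.Agent.Y756.TB2.place

theorem pt1_ : S2_PT1 := Pool.Agent.Y961.TB2.pt1 Pool.Agent.Y968.TB2.surj Pool.Agent.Y641.TB.dep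

theorem pt2_ : S2_PT2 := Pool.Agent.Y961.TB2.pt2 Pool.Agent.Y968.TB2.surj Pool.Agent.Y641.TB.dep

theorem pt3_ : S2_PT3 := Pool.Agent.Y961.TB2.pt3 Pool.Agent.Y968.TB2.surj Pool.Agent.Y641.TB.dep

theorem local_thm2 : S2_LOCAL :=
  local2 Pool.Agent.Y568.TB2.sel Pool.Agent.Y641.TB.good Pool.Agent.Y968.TB2.ni pt1_ pt2_ pt3_
    (Pool.Agent.Y968.TB2.flat Pool.Agent.Y968.TB2.surj) Pool.Agent.Y568.TB2.two core2_

theorem glob_thm2 : S2_GLOB := Pool.Agent.Y568.TB2.glob Pool.Agent.Y568.TB2.chart local_thm2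

/-- The phase points whose billiard trajectory is periodic modulo some isometry `g ∈ Γ`, with any
number `n ≥ 1` of bounces in a period, all of them at noncircular algebraic boundary points with the
exception of at most two, `p a` and `p b`, and such that `p b` is an algebraic boundary point
(circular or not) or all the bounces between `p a` and `p b` are at points of zero curvature. -/
def PerPair {d : ℕ} (Γ : Set (EuclideanSpace ℝ (Fin d) ≃ᵃⁱ[ℝ] EuclideanSpace ℝ (Fin d)))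
    (Ω : Set (EuclideanSpace ℝ (Fin d))) :
    Set (EuclideanSpace ℝ (Fin d) × EuclideanSpace ℝ (Fin d)) :=
  {z | ∃ g ∈ Γ, ∃ (n : ℕ) (p u : ℕ → EuclideanSpace ℝ (Fin d)), OrbitMod Ω g n p u ∧
    (p 0, u 0) = z ∧ ∃ a < n, ∃ b, a ≤ b ∧ b < a + n ∧
      (∀ k, a < k → k < a + n → k ≠ b → AlgAt Ω (p k)) ∧
      (AnyAlg Ω (p b) ∨ ∀ k, a < k → k < b → ZeroCurv Ω (p k))}

theorem perPair_null (d : ℕ) (hd : 2 ≤ d) (Ω : Set (EuclideanSpace ℝ (Fin d)))
    (Γ : Set (EuclideanSpace ℝ (Fin d) ≃ᵃⁱ[ℝ] EuclideanSpace ℝ (Fin d))) (hΓ : Γ.Countable)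
    (hinv : ∀ g ∈ Γ, g ⁻¹' Ω = Ω) :
    μH[((2 * d - 2 : ℕ) : ℝ)] (PerPair Γ Ω) = 0 := by
  refine measure_mono_null ?_ (measure_union_null (perLoop_null hd Ω Γ hΓ hinv)
    (measure_union_null (glob_thm2 d hd Ω Γ hΓ hinv)
    (globA Pool.Agent.Y568.TB2.chart Pool.Agent.Y641.TB.good pt1_ pt2_ pt3_ core2_ d hd Ω Γ hΓ
      hinv)))
  rintro z ⟨g, hg, n, p, u, hor, hz, a, han, b, hab, hbn, h1, h2⟩
  rcases eq_or_lt_of_le hab with rfl | hab
  · left
    apply one_sub_perLoop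
    exact ⟨g, hg, n, p, u, hor, hz, a, han, fun k hk hk' => h1 k hk hk' (by omega)⟩
  · right
    rcases h2 with h2 | h2
    · exact Or.inr ⟨g, hg, n, p, u, hor, hz, a, han, b, hab, hbn, h1, h2⟩
    · exact Or.inl ⟨g, hg, n, p, u, hor, hz, a, han, b, hab, hbn, h1, h2⟩

end Pool.Agent.Y294.TB2
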