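import Pool.Agent.Y294.TB2.Stm
import Pool.Agent.Y294.TB.Loc1

/-!
Coordinates of the closing relations, matrix of the composition of a reflection and an isometry, in
all dimensions.
-/

set_option autoImplicit false

open MeasureTheory Set Filter Topology
open scoped InnerProductSpace
open Pool.Agent.H721R2.Quart Pool.Agent.H721R2.Ivrii

namespace Pool.Agent.Y294.TB2

open Pool.Agent.TH746 Pool.Agent.TH746.AL MvPolynomial H450Al H450Sp Pool.Agent.Y294.TB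

theorem lin_co2 {m : ℕ} (g : EE m ≃ᵃⁱ[ℝ] EE m) (v : EE m) (j : Fin (m + 2)) :
    (g.linearIsometryEquiv v).ofLp j =
      ∑ i, v.ofLp i * (g.linearIsometryEquiv (EuclideanSpace.single i (1 : ℝ))).ofLp j := by
  have hx : v = ∑ i, v.ofLp i • (EuclideanSpace.single i (1 : ℝ) : EE m) := by
    ext j
    simp [Finset.sum_apply, Pi.single_apply]
  conv_lhs => rw [hx]
  rw [map_sum]
  simp only [map_smul]
  simp

theorem aff_co2 {m : ℕ} (g : EE m ≃ᵃⁱ[ℝ] EE m) (x : EE m) (j : Fin (m + 2)) :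
    (g x).ofLp j =
      (∑ i, x.ofLp i * (g.linearIsometryEquiv (EuclideanSpace.single i (1 : ℝ))).ofLp j) +
        (g 0).ofLp j := by
  have e1 := g.map_vsub x 0
  simp only [vsub_eq_sub, sub_zero] at e1
  have e2 : g x = g.linearIsometryEquiv x + g 0 := by rw [e1]; abel
  rw [e2, ← lin_co2]
  rfl

theorem inner_co2 {m : ℕ} (v w : EE m) : ⟪v, w⟫_ℝ = ∑ i, v.ofLp i * w.ofLp i := by
  rw [PiLp.inner_apply]
  apply Finset.sum_congr rfl
  intro i _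
  simp [mul_comm]

theorem norm_co2 {m : ℕ} (v : EE m) : ⟪v, v⟫_ℝ = ∑ i, v.ofLp i ^ 2 := by
  rw [inner_co2]
  apply Finset.sum_congr rfl
  intro i _
  ring

theorem rf_co2 {m : ℕ} (n v : EE m) (i : Fin (m + 2)) :
    (rf n v).ofLp i = v.ofLp i - 2 * (∑ l, n.ofLp l * v.ofLp l) * n.ofLp i := by
  unfold rf
  rw [inner_co2]
  rfl

/-- the matrix of `G ∘ rf n` -/
noncomputable def Mx2 {m : ℕ} (g : EE m ≃ᵃⁱ[ℝ] EE m) (n : EE m) (i l : Fin (m + 2)) : ℝ :=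
  ∑ p, ((if p = l then 1 else 0) - 2 * n.ofLp l * n.ofLp p) *
    (g.linearIsometryEquiv (EuclideanSpace.single p (1 : ℝ))).ofLp i

theorem Mx2_apply {m : ℕ} (g : EE m ≃ᵃⁱ[ℝ] EE m) (n v : EE m) (i : Fin (m + 2)) :
    ∑ l, Mx2 g n i l * v.ofLp l = (g.linearIsometryEquiv (rf n v)).ofLp i := by
  rw [lin_co2]
  simp only [rf_co2, Mx2]
  simp_rw [Finset.sum_mul]
  rw [Finset.sum_comm]
  apply Finset.sum_congr rfl
  intro p _
  have h : v.ofLp p - 2 * (∑ l, n.ofLp l * v.ofLp l) * n.ofLp p =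
      ∑ l, ((if p = l then 1 else 0) - 2 * n.ofLp l * n.ofLp p) * v.ofLp l := by
    simp only [sub_mul, Finset.sum_sub_distrib, ite_mul, one_mul, zero_mul,
      Finset.sum_ite_eq, Finset.mem_univ, if_true]
    congr 1
    rw [Finset.mul_sum, Finset.sum_mul]
    exact Finset.sum_congr rfl fun l _ => by ring
  rw [h, Finset.sum_mul]
  exact Finset.sum_congr rfl fun l _ => by ring

theorem Mx2_norm {m : ℕ} (g : EE m ≃ᵃⁱ[ℝ] EE m) (n : EE m) (hn : ⟪n, n⟫_ℝ = 1)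
    (v : Fin (m + 2) → ℝ) :
    ∑ i, (∑ l, Mx2 g n i l * v l) ^ 2 = ∑ i, v i ^ 2 := by
  have h1 : ∀ i, ∑ l, Mx2 g n i l * v l =
      (g.linearIsometryEquiv (rf n (WithLp.toLp 2 v))).ofLp i := fun i => by
    rw [← Mx2_apply]
  simp_rw [h1]
  rw [← norm_co2, LinearIsometryEquiv.inner_map_map, G3_rf_inner hn, norm_co2]

theorem lin_cl2 {m : ℕ} {κ : Type*} [Field κ] [Algebra κ ℝ] {S : Set ℝ} (g : EE m ≃ᵃⁱ[ℝ] EE m)
    (hg : ∀ i l, InF κ ((g.linearIsometryEquiv (EuclideanSpace.single i 1)).ofLp l)) (v : EE m)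
    (hv : ∀ i, v.ofLp i ∈ cl κ S) (i : Fin (m + 2)) :
    (g.linearIsometryEquiv v).ofLp i ∈ cl κ S := by
  rw [lin_co2]
  exact (clAlg κ S).sum_mem fun l _ => (clAlg κ S).mul_mem (hv l) ((hg l i).cl S)

theorem aff_cl2 {m : ℕ} {κ : Type*} [Field κ] [Algebra κ ℝ] {S : Set ℝ} (g : EE m ≃ᵃⁱ[ℝ] EE m)
    (h0 : ∀ i, InF κ ((g 0).ofLp i))
    (hg : ∀ i l, InF κ ((g.linearIsometryEquiv (EuclideanSpace.single i 1)).ofLp l)) (v : EE m)
    (hv : ∀ i, v.ofLp i ∈ cl κ S) (i : Fin (m + 2)) : (g v).ofLp i ∈ cl κ S := by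
  rw [aff_co2]
  exact (clAlg κ S).add_mem ((clAlg κ S).sum_mem fun l _ =>
    (clAlg κ S).mul_mem (hv l) ((hg l i).cl S)) ((h0 i).cl S)

theorem rf_cl2 {m : ℕ} {κ : Type*} [Field κ] [Algebra κ ℝ] {S : Set ℝ} (n v : EE m)
    (hn : ∀ i, n.ofLp i ∈ cl κ S) (hv : ∀ i, v.ofLp i ∈ cl κ S) (i : Fin (m + 2)) :
    (rf n v).ofLp i ∈ cl κ S := by
  rw [rf_co2]
  have h2 : (2 : ℝ) ∈ clAlg κ S := by
    have := (clAlg κ S).algebraMap_mem (2 : κ)
    rwa [map_ofNat] at this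
  exact (clAlg κ S).sub_mem (hv i) ((clAlg κ S).mul_mem ((clAlg κ S).mul_mem h2
    ((clAlg κ S).sum_mem fun l _ => (clAlg κ S).mul_mem (hn l) (hv l))) (hn i))

/-- the entries of the matrix -/
theorem Mx2_mem {m : ℕ} {κ : Type*} [Field κ] [Algebra κ ℝ] (K : IntermediateField κ ℝ)
    (g : EE m ≃ᵃⁱ[ℝ] EE m)
    (hg : ∀ i l, InF κ ((g.linearIsometryEquiv (EuclideanSpace.single i 1)).ofLp l)) (n : EE m)
    (hn : ∀ i, n.ofLp i ∈ K) (i l : Fin (m + 2)) : Mx2 g n i l ∈ K := by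
  unfold Mx2
  refine sum_mem fun p _ => mul_mem (sub_mem ?_ (mul_mem (mul_mem ?_ (hn l)) (hn p))) ?_
  · split_ifs
    · exact one_mem K
    · exact zero_mem K
  · exact ofNat_mem K 2
  · obtain ⟨c, hc⟩ := hg p i
    rw [← hc]
    exact K.algebraMap_mem c

/-- rank at the end point -/
theorem rk_aff2 {m : ℕ} {κ : Type*} [Field κ] [Algebra κ ℝ] (g : EE m ≃ᵃⁱ[ℝ] EE m)
    (h0 : ∀ i, InF κ ((g 0).ofLp i))
    (hg : ∀ i l, InF κ ((g.linearIsometryEquiv (EuclideanSpace.single i 1)).ofLp l)) (x : EE m) :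
    rk κ (range x.ofLp) ≤ rk κ (range (g x).ofLp) := by
  apply rk_mono
  rintro _ ⟨j, rfl⟩
  set S := range (g x).ofLp with hS
  have e1 := g.map_vsub x 0
  simp only [vsub_eq_sub, sub_zero] at e1
  have e2 : x.ofLp j = ⟪g.linearIsometryEquiv x,
      g.linearIsometryEquiv (EuclideanSpace.single j (1 : ℝ))⟫_ℝ := by
    rw [LinearIsometryEquiv.inner_map_map]
    rw [inner_co2]
    simp
  rw [e2, inner_co2, e1]
  refine (clAlg κ S).sum_mem fun l _ => (clAlg κ S).mul_mem ?_ ((hg j l).cl S)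
  exact (clAlg κ S).sub_mem (subset_cl κ S (mem_range_self l)) ((h0 l).cl S)

/-- unit vectors which are not equal or opposite have a nonzero minor -/
theorem cross_ne2 {m : ℕ} (u v : EE m) (hu : ⟪u, u⟫_ℝ = 1) (hv : ⟪v, v⟫_ℝ = 1) (h1 : v ≠ u)
    (h2 : v ≠ -u) : ∃ l l', u.ofLp l * v.ofLp l' - u.ofLp l' * v.ofLp l ≠ 0 := by
  by_contra hcon
  push Not at hcon
  obtain ⟨c, hc⟩ : ∃ c, c = ∑ i, u.ofLp i * v.ofLp i := ⟨_, rfl⟩
  rw [norm_co2] at hu hv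
  have e0 : ∀ l, v.ofLp l = c * u.ofLp l := by
    intro l
    have h3 : ∑ i, (u.ofLp i * (u.ofLp i * v.ofLp l)) = ∑ i, (u.ofLp i * v.ofLp i) * u.ofLp l := by
      apply Finset.sum_congr rfl
      intro i _
      linear_combination (u.ofLp i) * hcon i l
    rw [← Finset.sum_mul, ← hc] at h3
    rw [← h3]
    have h4 : ∑ i, (u.ofLp i * (u.ofLp i * v.ofLp l)) = (∑ i, u.ofLp i ^ 2) * v.ofLp l := by
      rw [Finset.sum_mul]
      exact Finset.sum_congr rfl fun i _ => by ring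
    rw [h4, hu, one_mul]
  have hc2 : c ^ 2 = 1 := by
    rw [← hv]
    have : ∑ i, v.ofLp i ^ 2 = c ^ 2 * ∑ i, u.ofLp i ^ 2 := by
      rw [Finset.mul_sum]
      exact Finset.sum_congr rfl fun i _ => by rw [e0 i]; ring
    rw [this, hu, mul_one]
  rcases (show c = 1 ∨ c = -1 by
    have h5 : (c - 1) * (c + 1) = 0 := by linear_combination hc2
    rcases mul_eq_zero.1 h5 with h6 | h6
    · left; linarith
    · right; linarith) with h3 | h3
  · apply h1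
    ext i
    rw [e0, h3, one_mul]
  · apply h2
    ext i
    rw [PiLp.neg_apply, e0, h3]
    ring

theorem Dq_sub_one_ne {κ : Type*} [Field κ] (n : ℕ) : (Dq κ n - 1 : MvPolynomial (Fin n) κ) ≠ 0 := by
  intro h0
  have h2 := congrArg (aeval (fun _ => (0 : κ))) h0
  unfold Dq at h2
  simp at h2

theorem unit_rk2 {m : ℕ} {κ : Type*} [Field κ] [Algebra κ ℝ] (v : Fin (m + 2) → ℝ)
    (h : ∑ i, v i ^ 2 = 1) : rk κ (range v) ≤ ((m + 1 : ℕ) : ℕ∞) := by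
  refine rk_lt_of_relation κ v (Dq κ (m + 2) - 1) (Dq_sub_one_ne _) ?_
  unfold Dq
  simp only [map_sub, map_sum, map_pow, aeval_X, map_one]
  rw [h, sub_self]

end Pool.Agent.Y294.TB2
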