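import Pool.Agent.Y294.TB2.Loc2

/-!
The local statement in all dimensions: the closed trajectories in a chart with at most two vertices
which are not at noncircular algebraic boundary points, the vertices between them being at points of
zero curvature, form a null set.
-/

set_option autoImplicit false

open MeasureTheory Set Filter Topology
open scoped InnerProductSpace
open Pool.Agent.H721R2.Quart Pool.Agent.H721R2.Ivrii

namespace Pool.Agent.Y294.TB2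

open Pool.Agent.TH746 Pool.Agent.TH746.AL MvPolynomial H450Al H450Sp Pool.Agent.Y294.TB

theorem vv2_diff {m : ℕ} {Z : Type} [NormedAddCommGroup Z] [NormedSpace ℝ Z] (C : Chn (EE m) Z)
    {z : Z} (hz : z ∈ C.U) (l : Fin 3 × Fin (C.N + 1) × Fin (m + 2)) :
    DifferentiableAt ℝ (vv2 C l) z := by
  have hl : (l.2.1 : ℕ) ≤ C.N := Nat.lt_succ_iff.1 l.2.1.2
  have key : ∀ f : Z → EE m, DifferentiableAt ℝ f z →
      DifferentiableAt ℝ (fun z => (f z).ofLp l.2.2) z := fun f hf =>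
    (EuclideanSpace.proj (𝕜 := ℝ) l.2.2 : EE m →L[ℝ] ℝ).differentiableAt.comp z hf
  unfold vv2
  by_cases h0 : l.1 = 0
  · simp only [h0, if_true]
    exact key _ (C.dx _ hl z hz)
  · by_cases h1 : l.1 = 1
    · have h2 : ((1 : Fin 3) = 0) = False := by simp
      simp only [h1, h2, if_false, if_true]
      exact key _ (C.de _ hl z hz)
    · simp only [h0, h1, if_false]
      exact key _ (C.dn _ hl z hz)

theorem local2 (hSEL : S2_SEL) (hGOOD : S_GOOD) (hNI : S2_NI) (h1 : S2_PT1) (h2 : S2_PT2)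
    (h3 : S2_PT3) (hF : S2_FLAT) (hT : S2_TWO) (hC2 : S2_CORE2) : S2_LOCAL := by
  intro m Z₁ Z₂ V _ _ _ _ _ _ _ _ _ _ _ _ _ μ _ C k hk j P hdim hdimV hS hcd hTj hj hjN h0 hg hnc
  obtain ⟨T, T1, T2⟩ := hTj
  have hN := C.hN
  obtain ⟨A, hAdef⟩ : ∃ A, A = {z | z ∈ C.U ∧ C.x C.N z = C.g (C.x 0 z) ∧
      C.e C.N z = C.G (C.e 0 z) ∧ C.n C.N z = C.G (C.n 0 z) ∧
      (∀ i, 1 ≤ i → i < C.N → i ≠ j → aeval (C.x i z).ofLp (P i) = 0) ∧
      ∀ i, 1 ≤ i → i < j → C.S i z = 0} := ⟨_, rfl⟩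
  rw [← hAdef]
  -- measurability
  have hcof : Continuous (fun y : EE m => y.ofLp) := (EuclideanSpace.equiv (Fin (m + 2)) ℝ).continuous
  have hAm : MeasurableSet A := by
    have hA : A = (((C.U ∩ (fun z => C.x C.N z - C.g (C.x 0 z)) ⁻¹' {0}) ∩
        ((C.U ∩ (fun z => C.e C.N z - C.G (C.e 0 z)) ⁻¹' {0}) ∩
        (C.U ∩ (fun z => C.n C.N z - C.G (C.n 0 z)) ⁻¹' {0}))) ∩
        ⋂ i ∈ {i : ℕ | 1 ≤ i ∧ i < C.N ∧ i ≠ j},
          (C.U ∩ (fun z => aeval (C.x i z).ofLp (P i)) ⁻¹' {0})) ∩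
        ⋂ i ∈ {i : ℕ | 1 ≤ i ∧ i < j}, (C.U ∩ (fun z => C.S i z) ⁻¹' {0}) := by
      rw [hAdef]
      ext z
      simp only [mem_ofPred_eq, mem_inter_iff, mem_preimage, mem_singleton_iff, sub_eq_zero,
        mem_iInter]
      constructor
      · rintro ⟨a1, a2, a3, a4, a5, a6⟩
        exact ⟨⟨⟨⟨a1, a2⟩, ⟨a1, a3⟩, ⟨a1, a4⟩⟩, fun i hi => ⟨a1, a5 i hi.1 hi.2.1 hi.2.2⟩⟩,
          fun i hi => ⟨a1, a6 i hi.1 hi.2⟩⟩
      · rintro ⟨⟨⟨⟨a1, a2⟩, ⟨-, a3⟩, ⟨-, a4⟩⟩, a5⟩, a6⟩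
        exact ⟨a1, a2, a3, a4, fun i b1 b2 b3 => (a5 i ⟨b1, b2, b3⟩).2,
          fun i b1 b2 => (a6 i ⟨b1, b2⟩).2⟩
    rw [hA]
    refine (((C.meas_zero fun z hz => ?_).inter ((C.meas_zero fun z hz => ?_).inter
      (C.meas_zero fun z hz => ?_))).inter
      (MeasurableSet.biInter (Set.to_countable _) fun i hi => C.meas_zero fun z hz => ?_)).inter
      (MeasurableSet.biInter (Set.to_countable _) fun i hi => C.meas_zero fun z hz => ?_)
    · exact (C.dx C.N le_rfl z hz).continuousAt.sub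
        (C.g.continuous.continuousAt.comp (C.dx 0 hN.le z hz).continuousAt)
    · exact (C.de C.N le_rfl z hz).continuousAt.sub
        (C.G.continuous.continuousAt.comp (C.de 0 hN.le z hz).continuousAt)
    · exact (C.dn C.N le_rfl z hz).continuousAt.sub
        (C.G.continuous.continuousAt.comp (C.dn 0 hN.le z hz).continuousAt)
    · exact ((continuous_aeval' (P i)).comp hcof).continuousAt.comp
        (C.dx i hi.2.1.le z hz).continuousAt
    · exact (C.dS i (lt_trans hi.2 hjN) z hz).continuousAt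
  have hAU : A ⊆ C.U := by rw [hAdef]; exact fun z hz => hz.1
  -- good points
  obtain ⟨B, hBA, hBm, hBn, hB⟩ := hGOOD (Z₁ × Z₂) μ k (Fin 3 × Fin (C.N + 1) × Fin (m + 2))
    (vv2 C) A hAm (fun z hz l => vv2_diff C (hAU hz) l)
  obtain ⟨W, hWdef⟩ : ∃ W, W = {z | z ∈ C.U ∧ C.e j z = -C.e (j - 1) z} := ⟨_, rfl⟩
  have hW0 : μ W = 0 := by rw [hWdef]; exact hNI m (Z₁ × Z₂) μ C j hj hjN
  have hWm : MeasurableSet W := by
    have hW : W = C.U ∩ (fun z => C.e j z + C.e (j - 1) z) ⁻¹' {0} := by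
      rw [hWdef]
      ext z
      simp only [mem_ofPred_eq, mem_inter_iff, mem_preimage, mem_singleton_iff, add_eq_zero_iff_eq_neg]
    rw [hW]
    exact C.meas_zero fun z hz => (C.de j hjN.le z hz).continuousAt.add
      (C.de (j - 1) (by omega) z hz).continuousAt
  by_contra hne
  have hB' : μ (B \ W) ≠ 0 := by
    intro h
    apply hne
    have hsub : A ⊆ (B \ W) ∪ ((A \ B) ∪ W) := by
      intro z hz
      by_cases hzB : z ∈ B
      · by_cases hzW : z ∈ W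
        · exact Or.inr (Or.inr hzW)
        · exact Or.inl ⟨hzB, hzW⟩
      · exact Or.inr (Or.inl ⟨hz, hzB⟩)
    exact measure_mono_null hsub (measure_union_null h (measure_union_null hBn hW0))
  have hF0 : ∀ i, InF k ((C.g 0).ofLp i) := fun i => ⟨⟨_, h0 i⟩, rfl⟩
  have hFg : ∀ i l, InF k ((C.g.linearIsometryEquiv (EuclideanSpace.single i 1)).ofLp l) :=
    fun i l => ⟨⟨_, hg i l⟩, rfl⟩
  have hnck : ∀ i, 1 ≤ i → i < C.N → i ≠ j → ¬ Dq k (m + 2) ∣ lead (P i) := fun i a b c =>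
    descend_lead (P i) (hnc i a b c)
  have hcl : ∀ z ∈ B \ W, ∀ i, (C.x j z).ofLp i ∈
      cl k ((range (C.x 0 z).ofLp ∪ range (C.n 0 z).ofLp) ∪ range (C.e 0 z).ofLp) := by
    intro z hz
    have hzA := hBA hz.1
    have hzU := hAU hzA
    rw [hAdef] at hzA
    obtain ⟨-, a2, a3, a4, a5, -⟩ := hzA
    refine xj_mem2 C hT h2 hF0 hFg hzU (hB z hz.1) a2 a3 a4 hj hjN P
      (fun i b1 b2 b3 => ⟨lead_zero_of _ (hnck i b1 b2 b3), a5 i b1 b2 b3⟩) ?_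
    intro h
    apply hz.2
    rw [hWdef]
    exact ⟨hzU, h⟩
  -- the vertex `j` moves with the initial direction
  obtain ⟨β, hβ⟩ : ∃ β : Z₁ × Z₂ → V, β = fun z => T (C.x j z) := ⟨_, rfl⟩
  have hβd : ∀ z ∈ C.U, ∀ ζ, fderiv ℝ β z ζ = T (fderiv ℝ (C.x j) z ζ) := by
    intro z hz ζ
    have := T.hasFDerivAt.comp z (C.dx j hjN.le z hz).hasFDerivAt
    rw [hβ]
    change fderiv ℝ (T ∘ C.x j) z ζ = _
    rw [this.fderiv]
    rfl
  have hmove : ∀ z ∈ B \ W, ∀ ζ : Z₂, fderiv ℝ β z (0, ζ) = 0 → ζ = 0 := by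
    intro z hz ζ hζ
    have hzA := hBA hz.1
    have hzU := hAU hzA
    rw [hAdef] at hzA
    refine hF m Z₁ Z₂ C z hzU hS hdim j hj hjN hzA.2.2.2.2.2 ζ ?_
    apply T2 z hzU
    rw [← hβd z hzU]
    exact hζ
  obtain ⟨x0, A₁, hA₁, hA₁m, hA₁n, hsel⟩ := hSEL Z₁ Z₂ V μ C.U (B \ W) β (hdim.trans hdimV.symm)
    C.hU
    (fun z hz => by
      rw [hβ]
      exact T.contDiff.contDiffAt.comp z (hcd z hz j hjN.le))
    (fun z hz => hAU (hBA hz.1)) (hBm.diff hWm) hB' hmove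
  obtain ⟨X, hX⟩ := hS.x0
  obtain ⟨ν, hν⟩ := hS.n0
  obtain ⟨K₁, hK₁⟩ : ∃ K₁ : IntermediateField k ℝ,
    K₁ = IntermediateField.adjoin k (range (X x0).ofLp ∪ range (ν x0).ofLp) := ⟨_, rfl⟩
  have hK₁c : Countable K₁ := by rw [hK₁]; exact countable_adj2 _ _
  have hrk : ∀ z ∈ A₁, rk K₁ (range (C.x j z).ofLp) ≤ ((m + 1 : ℕ) : ℕ∞) := by
    intro z hz
    obtain ⟨y, hy, hye⟩ := hsel z hz
    have hyU : (x0, y) ∈ C.U := hAU (hBA hy.1)
    have e1 : C.x j (x0, y) = C.x j z := by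
      apply T1 _ hyU _ (hAU (hBA (hA₁ hz).1))
      rw [hβ] at hye
      exact hye
    rw [← e1]
    have e2 : ∀ i, (C.x j (x0, y)).ofLp i ∈ cl K₁ (range (C.e 0 (x0, y)).ofLp) := by
      intro i
      have h5 := hcl (x0, y) hy i
      have h6 : C.x 0 (x0, y) = X x0 := by rw [hX]
      have h7 : C.n 0 (x0, y) = ν x0 := by rw [hν]
      rw [h6, h7, cl_union, ← hK₁] at h5
      exact h5
    refine le_trans (rk_mono K₁ ?_) (unit_rk2 (C.e 0 (x0, y)).ofLp (by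
      rw [← norm_co2]
      exact C.ee 0 hN _ hyU))
    rintro _ ⟨i, rfl⟩
    exact e2 i
  obtain ⟨B₂, hB₂A, -, hB₂n, hB₂⟩ := hGOOD (Z₁ × Z₂) μ K₁
    (Fin 3 × Fin (C.N + 1) × Fin (m + 2)) (vv2 C)
    A₁ hA₁m (fun z hz l => vv2_diff C (hAU (hBA (hA₁ hz).1)) l)
  have hB₂ne : B₂.Nonempty := by
    by_contra hcon
    rw [Set.not_nonempty_iff_eq_empty] at hcon
    rw [hcon, Set.sdiff_empty] at hB₂n
    exact hA₁n hB₂n
  obtain ⟨z, hz⟩ := hB₂ne
  have hzA := hBA (hA₁ (hB₂A hz)).1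
  have hzU := hAU hzA
  rw [hAdef] at hzA
  obtain ⟨-, a2, a3, a4, a5, -⟩ := hzA
  have hup : ∀ a, InF k a → InF K₁ a := by
    rintro a ⟨c, rfl⟩
    exact ⟨algebraMap k K₁ c, (IsScalarTower.algebraMap_apply k K₁ ℝ c).symm⟩
  refine nondegen2 C hC2 h1 h2 h3 (fun i => hup _ (hF0 i)) (fun i l => hup _ (hFg i l)) hS hzU
    (hB₂ z hz) a2 a3 a4 hj hjN (fun i => map (algebraMap k K₁) (P i)) ?_ (hrk z (hB₂A hz))
  intro i b1 b2 b3
  constructor
  · apply descend_lead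
    rw [MvPolynomial.map_map, ← IsScalarTower.algebraMap_eq k K₁ ℝ]
    exact hnc i b1 b2 b3
  · rw [aeval_map_algebraMap]
    exact a5 i b1 b2 b3

end Pool.Agent.Y294.TB2
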