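import Pool.Agent.Y294.TB.Stm

/-!
Statements of the lemmas of the project TB2 (all dimensions, periodic orbits with two bounces at
arbitrary boundary points, the bounces between them at points of zero curvature, and all the other
bounces at noncircular algebraic boundary points).
-/

set_option autoImplicit false

open MeasureTheory Set Filter Topology
open scoped InnerProductSpace
open Pool.Agent.H721R2.Quart Pool.Agent.H721R2.Ivrii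

namespace Pool.Agent.Y294.TB2

open Pool.Agent.TH746 Pool.Agent.TH746.AL MvPolynomial H450Al H450Sp Pool.Agent.Y294.TB

/-! ### Algebra -/

/-- the family `y` lies in `B` and its residues are algebraically independent over `k` -/
def ResInd (k : Type*) {F : Type*} [Field k] [Field F] [Algebra k F] (B : ValuationSubring F)
    {r : ℕ} (y : Fin r → F) : Prop :=
  (∀ i, y i ∈ B) ∧ ∀ f : MvPolynomial (Fin r) k, f ≠ 0 → aeval y f ∉ B.nonunits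

/-- HG: the isotropic hyperplane through a generic isotropic line is generic -/
def S2_HG : Prop :=
  ∀ (m : ℕ) (k Ω : Type) [Field k] [Algebra k ℝ] [Field Ω] [Algebra k Ω]
    (q e : Fin (m + 2) → Ω) (P : MvPolynomial (Fin (m + 2)) k) (l₀ : Fin (m + 2)),
    ¬ Dq k (m + 2) ∣ lead P → aeval q P = 0 → ∑ l, e l ^ 2 = 0 →
    ((2 * m + 2 : ℕ) : ℕ∞) ≤ rk k (range q ∪ range e) → e l₀ ≠ 0 →
    ((m + 1 : ℕ) : ℕ∞) ≤ rk k (insert ((∑ l, q l * e l) / e l₀) (range fun l => e l / e l₀))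

/-- CHAIN -/
def S2_CHAIN : Prop :=
  ∀ (m : ℕ) (k : Type) [Field k] [Algebra k ℝ] (K : IntermediateField k ℝ)
    (B : ValuationSubring ℝ) (_ : ∀ a ∈ K, a ∈ B) (N : ℕ)
    (P Φ : ℕ → MvPolynomial (Fin (m + 2)) k) (q e : ℕ → Fin (m + 2) → ℝ) (s : ℕ → ℝ),
    ((m + 1 : ℕ) : ℕ∞) ≤ rk k (range (q 0)) → (∀ i, q 0 i ∈ K) → (∀ i, e 0 i ∈ B) →
    (∑ i, e 0 i ^ 2) ∈ B.nonunits →
    (∃ w : Fin (m + 1) → Fin (m + 2), ResInd K B (fun i => e 0 (w i))) →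
    (∀ i, 1 ≤ i → i ≤ N → aeval (q i) (P i) = 0) →
    (∀ i, 1 ≤ i → i ≤ N → ¬ Dq k (m + 2) ∣ lead (P i)) →
    (∀ i, 1 ≤ i → i ≤ N → grad (Φ i) (q i) ≠ 0) →
    (∀ i < N, q (i + 1) = fun l => q i l + s i * e i l) →
    (∀ i < N, e (i + 1) = refl (grad (Φ (i + 1)) (q (i + 1))) (e i)) →
    (∑ i ∈ Finset.range N, s i) ∈ B ∧ (∀ l, q N l ∈ B) ∧ (∀ l, e N l ∈ B) ∧
      (∑ i, e N i ^ 2 = ∑ i, e 0 i ^ 2) ∧
      ∃ l₀, e N l₀ ∉ B.nonunits ∧ ∃ y : Fin (m + 1) → ℝ, ResInd k B y ∧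
        ∀ i, (∃ l, y i = e N l / e N l₀) ∨ y i = (∑ l, q N l * e N l) / e N l₀

/-- LEN -/
def S2_LEN : Prop :=
  ∀ (d : ℕ) (k : Type) [Field k] [Algebra k ℝ] (K : IntermediateField k ℝ) (n : ℕ)
    (Φ : ℕ → MvPolynomial (Fin d) k) (q u : ℕ → Fin d → ℝ) (t : ℕ → ℝ), 1 ≤ n →
    (∀ i, q 0 i ∈ K) → (∀ i, IsAlgebraic K (q n i)) →
    (∀ i < n, ∑ l, u i l ^ 2 = 1) →
    (∀ i, 1 ≤ i → i < n → aeval (q i) (Φ i) = 0) →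
    (∀ i < n, q (i + 1) = fun l => q i l + t i * u i l) →
    (∀ i, i + 1 < n → u (i + 1) = refl (grad (Φ (i + 1)) (q (i + 1))) (u i)) →
    IsAlgebraic K (∑ i ∈ Finset.range n, t i)

/-- PLACE -/
def S2_PLACE : Prop :=
  ∀ (m : ℕ) (k : Type) [Field k] [Algebra k ℝ] (K : IntermediateField k ℝ) (_ : Countable K)
    (u : Fin (m + 2) → ℝ), ((m + 1 : ℕ) : ℕ∞) ≤ rk K (range u) → ∑ i, u i ^ 2 = 1 →
    ∃ (lam : ℝ) (B : ValuationSubring ℝ), lam ≠ 0 ∧ (∀ a ∈ K, a ∈ B) ∧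
      (∀ i, lam * u i ∈ B) ∧ lam ^ 2 ∈ B.nonunits ∧
      ∃ w : Fin (m + 1) → Fin (m + 2), ResInd K B (fun i => lam * u (w i))

/-- CORE2 -/
def S2_CORE2 : Prop :=
  ∀ (m : ℕ) (k : Type) [Field k] [Algebra k ℝ] (K : IntermediateField k ℝ) (_ : Countable K)
    (n j : ℕ) (P Φ : ℕ → MvPolynomial (Fin (m + 2)) k) (q u : ℕ → Fin (m + 2) → ℝ) (t : ℕ → ℝ)
    (M : Fin (m + 2) → Fin (m + 2) → ℝ), 1 ≤ j → j < n →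
    (∀ i, q 0 i ∈ K) → (∀ i, q n i ∈ K) →
    ((m + 1 : ℕ) : ℕ∞) ≤ rk k (range (q 0)) → ((m + 1 : ℕ) : ℕ∞) ≤ rk k (range (q n)) →
    ((m + 1 : ℕ) : ℕ∞) ≤ rk K (range (u 0)) → ∑ i, u 0 i ^ 2 = 1 →
    (∀ i l, M i l ∈ K) → (∀ v : Fin (m + 2) → ℝ, ∑ i, (∑ l, M i l * v l) ^ 2 = ∑ i, v i ^ 2) →
    (u (n - 1) = fun i => ∑ l, M i l * u 0 l) →
    (∀ i, 1 ≤ i → i < n → i ≠ j → aeval (q i) (P i) = 0) →
    (∀ i, 1 ≤ i → i < n → i ≠ j → ¬ Dq k (m + 2) ∣ lead (P i)) →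
    (∀ i, 1 ≤ i → i < n → aeval (q i) (Φ i) = 0) →
    (∀ i, 1 ≤ i → i < n → grad (Φ i) (q i) ≠ 0) →
    (∀ i < n, q (i + 1) = fun l => q i l + t i * u i l) →
    (∀ i, i + 1 < n → u (i + 1) = refl (grad (Φ (i + 1)) (q (i + 1))) (u i)) →
    ∑ l, u (j - 1) l * grad (Φ j) (q j) l ≠ 0 →
    ∑ i ∈ Finset.range n, t i ≠ 0 → False

/-- TWO -/
def S2_TWO : Prop :=
  ∀ (d : ℕ) (k : Type) [Field k] [Algebra k ℝ] (n j : ℕ) (S : Set ℝ)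
    (Φ : ℕ → MvPolynomial (Fin d) k) (q u : ℕ → Fin d → ℝ) (t : ℕ → ℝ), 1 ≤ j → j < n →
    (∀ i, q 0 i ∈ cl k S) → (∀ i, u 0 i ∈ cl k S) → (∀ i, q n i ∈ cl k S) →
    (∀ i, u (n - 1) i ∈ cl k S) →
    (∀ i, 1 ≤ i → i < n → i ≠ j → aeval (q i) (Φ i) = 0) →
    (∀ i, i + 1 < n → i + 1 ≠ j → ∑ l, grad (Φ (i + 1)) (q (i + 1)) l * u i l ≠ 0) →
    (∀ i < n, q (i + 1) = fun l => q i l + t i * u i l) →
    (∀ i, i + 1 < n → i + 1 ≠ j →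
      u (i + 1) = refl (grad (Φ (i + 1)) (q (i + 1))) (u i)) →
    (∃ l l', u (j - 1) l * u j l' - u (j - 1) l' * u j l ≠ 0) → ∀ i, q j i ∈ cl k S

/-! ### Selection -/

/-- SEL -/
def S2_SEL : Prop :=
  ∀ (Z₁ Z₂ W : Type) [NormedAddCommGroup Z₁] [NormedSpace ℝ Z₁] [FiniteDimensional ℝ Z₁]
    [MeasurableSpace Z₁] [BorelSpace Z₁] [NormedAddCommGroup Z₂] [NormedSpace ℝ Z₂]
    [FiniteDimensional ℝ Z₂] [MeasurableSpace Z₂] [BorelSpace Z₂]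
    [NormedAddCommGroup W] [NormedSpace ℝ W] [FiniteDimensional ℝ W]
    (μ : Measure (Z₁ × Z₂)) [μ.IsAddHaarMeasure] (U A : Set (Z₁ × Z₂)) (β : Z₁ × Z₂ → W),
    Module.finrank ℝ Z₂ = Module.finrank ℝ W → IsOpen U → (∀ z ∈ U, ContDiffAt ℝ 1 β z) →
    A ⊆ U → MeasurableSet A → μ A ≠ 0 →
    (∀ z ∈ A, ∀ ζ : Z₂, fderiv ℝ β z (0, ζ) = 0 → ζ = 0) →
    ∃ (x : Z₁) (A₁ : Set (Z₁ × Z₂)), A₁ ⊆ A ∧ MeasurableSet A₁ ∧ μ A₁ ≠ 0 ∧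
      ∀ z ∈ A₁, ∃ y : Z₂, (x, y) ∈ A ∧ β (x, y) = β z

/-! ### Charts -/

/-- the coordinates of positions, directions and normals along a chain -/
def vv2 {m : ℕ} {Z : Type*} [NormedAddCommGroup Z] [NormedSpace ℝ Z] (C : Chn (EE m) Z) :
    Fin 3 × Fin (C.N + 1) × Fin (m + 2) → Z → ℝ := fun l z =>
  (if l.1 = 0 then C.x l.2.1 z else if l.1 = 1 then C.e l.2.1 z else C.n l.2.1 z).ofLp l.2.2

/-- SURJ -/
def S2_SURJ : Prop :=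
  ∀ (m : ℕ) (Z : Type) [NormedAddCommGroup Z] [NormedSpace ℝ Z] (C : Chn (EE m) Z),
    ∀ k < C.N, ∀ z ∈ C.U, ∀ Y δ, ⟪C.n k z, Y⟫_ℝ = 0 → ⟪C.e k z, δ⟫_ℝ = 0 →
      ∃ ζ, fderiv ℝ (C.x k) z ζ = Y ∧ fderiv ℝ (C.e k) z ζ = δ

/-- NI -/
def S2_NI : Prop :=
  ∀ (m : ℕ) (Z : Type) [NormedAddCommGroup Z] [NormedSpace ℝ Z] [FiniteDimensional ℝ Z]
    [MeasurableSpace Z] [BorelSpace Z] (μ : Measure Z) [μ.IsAddHaarMeasure]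
    (C : Chn (EE m) Z) (j : ℕ), 1 ≤ j → j < C.N →
    μ {z | z ∈ C.U ∧ C.e j z = -C.e (j - 1) z} = 0

/-- PT1 -/
def S2_PT1 : Prop :=
  ∀ (m : ℕ) (Z : Type) [NormedAddCommGroup Z] [NormedSpace ℝ Z] (C : Chn (EE m) Z) (k : Type)
    [Field k] [Algebra k ℝ] (z : Z), z ∈ C.U → GoodAt k (vv2 C) z → ∀ i < C.N,
    ((m + 1 : ℕ) : ℕ∞) ≤ rk k (range (C.x i z).ofLp)

/-- PT2 -/
def S2_PT2 : Prop :=
  ∀ (m : ℕ) (Z : Type) [NormedAddCommGroup Z] [NormedSpace ℝ Z] (C : Chn (EE m) Z) (k : Type)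
    [Field k] [Algebra k ℝ] (z : Z), z ∈ C.U → GoodAt k (vv2 C) z → ∀ i < C.N,
    rk k (range (C.x i z).ofLp) ≤ ((m + 1 : ℕ) : ℕ∞) →
    ∃ Φ : MvPolynomial (Fin (m + 2)) k, aeval (C.x i z).ofLp Φ = 0 ∧
      grad Φ (C.x i z).ofLp ≠ 0 ∧
      (∀ v : EE m, (rf (C.n i z) v).ofLp = refl (grad Φ (C.x i z).ofLp) v.ofLp) ∧
      (∀ v : EE m, ⟪C.n i z, v⟫_ℝ ≠ 0 → ∑ l, v.ofLp l * grad Φ (C.x i z).ofLp l ≠ 0)

/-- the data of the initial vertex are functions of the first parameter, the initial direction is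
a function of the second one -/
structure Split2 {m : ℕ} {Z₁ Z₂ : Type*} [NormedAddCommGroup Z₁] [NormedSpace ℝ Z₁]
    [NormedAddCommGroup Z₂] [NormedSpace ℝ Z₂] (C : Chn (EE m) (Z₁ × Z₂)) : Prop where
  x0 : ∃ X : Z₁ → EE m, C.x 0 = fun z => X z.1
  n0 : ∃ ν : Z₁ → EE m, C.n 0 = fun z => ν z.1
  e0 : ∃ Y : Z₂ → EE m, C.e 0 = fun z => Y z.2

/-- PT3 -/
def S2_PT3 : Prop :=
  ∀ (m : ℕ) (Z₁ Z₂ : Type) [NormedAddCommGroup Z₁] [NormedSpace ℝ Z₁] [NormedAddCommGroup Z₂]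
    [NormedSpace ℝ Z₂] (C : Chn (EE m) (Z₁ × Z₂)) (k : Type) [Field k] [Algebra k ℝ]
    (z : Z₁ × Z₂), z ∈ C.U → Split2 C → GoodAt k (vv2 C) z →
    ((m + 1 : ℕ) : ℕ∞) ≤
      rk (IntermediateField.adjoin k (range (C.x 0 z).ofLp ∪ range (C.n 0 z).ofLp))
        (range (C.e 0 z).ofLp)

/-- FLAT: the vertex `j` depends in a nondegenerate way on the initial direction if the mirrors in
between have zero curvature -/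
def S2_FLAT : Prop :=
  ∀ (m : ℕ) (Z₁ Z₂ : Type) [NormedAddCommGroup Z₁] [NormedSpace ℝ Z₁] [NormedAddCommGroup Z₂]
    [NormedSpace ℝ Z₂] [FiniteDimensional ℝ Z₂] (C : Chn (EE m) (Z₁ × Z₂)) (z : Z₁ × Z₂),
    z ∈ C.U → Split2 C → Module.finrank ℝ Z₂ = m + 1 → ∀ j, 1 ≤ j → j < C.N →
    (∀ i, 1 ≤ i → i < j → C.S i z = 0) →
    ∀ ζ : Z₂, fderiv ℝ (C.x j) z (0, ζ) = 0 → ζ = 0

/-- CHART -/
def S2_CHART : Prop :=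
  ∀ (m : ℕ) (Ω : Set (EE m)) (g : EE m ≃ᵃⁱ[ℝ] EE m) (n : ℕ) (p u : ℕ → EE m), g ⁻¹' Ω = Ω →
    OrbitMod Ω g n p u →
    ∃ (a b : EE m) (C : Chn (EE m) ((ℝ ∙ a)ᗮ × (ℝ ∙ b)ᗮ)), a ≠ 0 ∧ b ≠ 0 ∧
      C.N = n ∧ C.g = g ∧ Split2 C ∧
      (∀ z ∈ C.U, ∀ k ≤ n, ContDiffAt ℝ 1 (C.x k) z) ∧
      (∀ k ≤ n, ∃ (c : EE m) (T : EE m →L[ℝ] (ℝ ∙ c)ᗮ), c ≠ 0 ∧
        (∀ z ∈ C.U, ∀ z' ∈ C.U, T (C.x k z) = T (C.x k z') → C.x k z = C.x k z') ∧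
        ∀ z ∈ C.U, ∀ ζ, T (fderiv ℝ (C.x k) z ζ) = 0 → fderiv ℝ (C.x k) z ζ = 0) ∧
      (∀ i ≤ n, ∃ K, LipschitzOnWith K (fun z => (C.x i z, C.e i z)) C.U) ∧
      ∀ᶠ w : (ℕ → EE m) × (ℕ → EE m) in 𝓝 (p, u), OrbitMod Ω g n w.1 w.2 →
        ∃ z ∈ C.U, (∀ k ≤ n, C.x k z = w.1 k ∧ C.e k z = w.2 k) ∧
          C.n C.N z = C.G (C.n 0 z) ∧ ∀ k < n, ZeroCurv Ω (w.1 k) → C.S k z = 0

/-! ### Assembly -/

/-- the leading form of a real polynomial is not divisible by `X₁² + ... + X_d²` -/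
def NC2 {d : ℕ} (P : MvPolynomial (Fin d) ℝ) : Prop :=
  ¬ (∑ i, X i ^ 2) ∣ homogeneousComponent P.totalDegree P

/-- LOCAL -/
def S2_LOCAL : Prop :=
  ∀ (m : ℕ) (Z₁ Z₂ W : Type) [NormedAddCommGroup Z₁] [NormedSpace ℝ Z₁] [FiniteDimensional ℝ Z₁]
    [MeasurableSpace Z₁] [BorelSpace Z₁] [NormedAddCommGroup Z₂] [NormedSpace ℝ Z₂]
    [FiniteDimensional ℝ Z₂] [MeasurableSpace Z₂] [BorelSpace Z₂]
    [NormedAddCommGroup W] [NormedSpace ℝ W] [FiniteDimensional ℝ W]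
    (μ : Measure (Z₁ × Z₂)) [μ.IsAddHaarMeasure] (C : Chn (EE m) (Z₁ × Z₂)) (k : Subfield ℝ)
    (_ : Countable k) (j : ℕ) (P : ℕ → MvPolynomial (Fin (m + 2)) k),
    Module.finrank ℝ Z₂ = m + 1 → Module.finrank ℝ W = m + 1 → Split2 C →
    (∀ z ∈ C.U, ∀ i ≤ C.N, ContDiffAt ℝ 1 (C.x i) z) →
    (∃ T : EE m →L[ℝ] W,
      (∀ z ∈ C.U, ∀ z' ∈ C.U, T (C.x j z) = T (C.x j z') → C.x j z = C.x j z') ∧
      ∀ z ∈ C.U, ∀ ζ, T (fderiv ℝ (C.x j) z ζ) = 0 → fderiv ℝ (C.x j) z ζ = 0) →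
    1 ≤ j → j < C.N →
    (∀ i, (C.g 0).ofLp i ∈ k) →
    (∀ i l, (C.g.linearIsometryEquiv (EuclideanSpace.single i 1)).ofLp l ∈ k) →
    (∀ i, 1 ≤ i → i < C.N → i ≠ j → NC2 (map (algebraMap k ℝ) (P i))) →
    μ {z | z ∈ C.U ∧ C.x C.N z = C.g (C.x 0 z) ∧ C.e C.N z = C.G (C.e 0 z) ∧
      C.n C.N z = C.G (C.n 0 z) ∧
      (∀ i, 1 ≤ i → i < C.N → i ≠ j → aeval (C.x i z).ofLp (P i) = 0) ∧
      ∀ i, 1 ≤ i → i < j → C.S i z = 0} = 0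

/-- GLOB -/
def S2_GLOB : Prop :=
  ∀ (d : ℕ), 2 ≤ d → ∀ (Ω : Set (EuclideanSpace ℝ (Fin d)))
    (Γ : Set (EuclideanSpace ℝ (Fin d) ≃ᵃⁱ[ℝ] EuclideanSpace ℝ (Fin d))), Γ.Countable →
    (∀ g ∈ Γ, g ⁻¹' Ω = Ω) →
    μH[((2 * d - 2 : ℕ) : ℝ)] {z : EuclideanSpace ℝ (Fin d) × EuclideanSpace ℝ (Fin d) |
      ∃ g ∈ Γ, ∃ (n : ℕ) (p u : ℕ → EuclideanSpace ℝ (Fin d)), OrbitMod Ω g n p u ∧
      (p 0, u 0) = z ∧ ∃ a < n, ∃ b, a < b ∧ b < a + n ∧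
        (∀ k, a < k → k < a + n → k ≠ b → AlgAt Ω (p k)) ∧
        ∀ k, a < k → k < b → ZeroCurv Ω (p k)} = 0

end Pool.Agent.Y294.TB2
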